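import Pool.Agent.H.MP_6ed805_an.B

namespace Pool.Agent.Results.MP_6ed805_an.Yes

open Ordinal Set Pool.Agent.H.MP_6ed805_an

theorem result (α : ℕ) (h : 3 ≤ α) :
    ∃ T : C(Icc (1 : Ordinal.{0}) (ω ^ α), ℝ) →ₗᵢ[ℝ] C(Icc (1 : Ordinal.{0}) (ω ^ α), ℝ),
      ∀ f g, min ‖T f - T g‖ ‖T f + T g‖ ≤ 40 * ‖|T f| - |T g|‖ := by
  obtain ⟨T, hT⟩ := exists_T h
  refine ⟨T, fun f g => ?_⟩
  rw [← map_sub, ← map_add, T.norm_map, T.norm_map]
  obtain ⟨x, h1, h2⟩ := both h (f - g) (f + g) (min_le_left _ _) (min_le_right _ _)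
  obtain ⟨t, ht⟩ := hT x
  have a := (|T f| - |T g|).norm_coe_le_norm t
  rw [← ht] at h1 h2
  simp only [map_add, map_sub, ContinuousMap.sub_apply, ContinuousMap.abs_apply,
    ContinuousMap.add_apply, Real.norm_eq_abs] at h1 h2 a
  generalize T f t = x at *
  generalize T g t = y at *
  rcases abs_cases x with k | k <;> rcases abs_cases y with l | l <;> rw [k.1, l.1] at a
  · linarith
  · rw [sub_neg_eq_add] at a; linarith
  · rw [← neg_add', abs_neg] at a; linarith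
  · rw [neg_sub_neg, abs_sub_comm] at a; linarith

end Pool.Agent.Results.MP_6ed805_an.Yes
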